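import Pool.Agent.MP_219b86_lc.h36.Nec
import Pool.Agent.MP_219b86_lc.h36.Suf

/-! The union of the upper cones above two incomparable degrees is a bi-embeddability spectrum
exactly when the two degrees are hyperarithmetic in each other. -/

namespace Pool.Agent.Results.MP_219b86_lc.HyperCones

open Pool.Agent.MP_219b86_lc.Hyp

theorem result (a b : Set ℕ) (hab : ¬ TuringReducible (chi a) (chi b))
    (hba : ¬ TuringReducible (chi b) (chi a)) :
    (∃ fa ra : ℕ → Option ℕ, Computable fa ∧ Computable ra ∧ ∃ A : (Lang fa ra).Structure ℕ,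
      ∀ d : Set ℕ, (∃ B : (Lang fa ra).Structure ℕ,
          BiEmb A B ∧ TuringEquivalent (chi (diagram B)) (chi d)) ↔
        (TuringReducible (chi a) (chi d) ∨ TuringReducible (chi b) (chi d))) ↔
    (HypIn a b ∧ HypIn b a) := by
  constructor
  · rintro ⟨fa, ra, hfa, -, A, H⟩
    exact ⟨nec hfa A hba fun d => (H d).trans Or.comm, nec hfa A hab H⟩
  · rintro ⟨h1, h2⟩
    exact ⟨_, _, Computable.const none,
      (Primrec.option_some.comp (Primrec.fst.comp Primrec.unpair)).to_comp, suf h1 h2⟩

end Pool.Agent.Results.MP_219b86_lc.HyperCones
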