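import Mathlib
import Pool.Agent.MP_219b86_lc.Main

/-!
A bi-embeddability spectrum that is the union of two upper cones over incomparable degrees.
-/

namespace Pool.Agent.Results.MP_219b86_lc.TwoCones

open FirstOrder

/-- The computable language with binary relation symbols `R_0, R_1, …` and nothing else. -/
def Lang : FirstOrder.Language where
  Functions _ := Empty
  Relations n := {_i : ℕ // n = 2}

/-- Bi-embeddability of two structures with universe `ℕ`. -/
def BiEmb (A B : Lang.Structure ℕ) : Prop :=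
  Nonempty (@Language.Embedding Lang ℕ ℕ A B) ∧ Nonempty (@Language.Embedding Lang ℕ ℕ B A)

/-- The atomic diagram: `⟨0, x, y⟩` codes the sentence `x = y` and `⟨i + 1, x, y⟩` codes
`R_i (x, y)`; the set holds the codes of the true atomic sentences. -/
def diagram (B : Lang.Structure ℕ) : Set ℕ :=
  {c | (∃ x y : ℕ, c = Nat.pair 0 (Nat.pair x y) ∧ x = y) ∨
    ∃ i x y : ℕ, c = Nat.pair (i + 1) (Nat.pair x y) ∧
      B.RelMap (⟨i, rfl⟩ : Lang.Relations 2) ![x, y]}

/-- The characteristic function of a set, as an oracle. -/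
noncomputable def chi (S : Set ℕ) : ℕ →. ℕ := fun n => Part.some (S.indicator (fun _ => 1) n)

open Pool.Agent.MP_219b86_lc

/-- the structure given by a family of binary relations -/
@[reducible] def mk (B : ℕ → ℕ → ℕ → Prop) : Lang.Structure ℕ where
  funMap f := Empty.elim f
  RelMap {_} r v := B r.1 (v ⟨0, by rw [r.2]; decide⟩) (v ⟨1, by rw [r.2]; decide⟩)

/-- the family of binary relations of a structure -/
def rl (B : Lang.Structure ℕ) (i x y : ℕ) : Prop := B.RelMap (⟨i, rfl⟩ : Lang.Relations 2) ![x, y]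

lemma rl_mk (B : ℕ → ℕ → ℕ → Prop) : rl (mk B) = B := rfl

lemma emb_iff (A B : Lang.Structure ℕ) :
    Nonempty (@Language.Embedding Lang ℕ ℕ A B) ↔ Emb (rl A) (rl B) := by
  constructor
  · rintro ⟨f⟩
    refine ⟨f, @Language.Embedding.injective Lang ℕ ℕ A B f, fun i x y => ?_⟩
    have := @Language.Embedding.map_rel Lang ℕ ℕ A B f 2 (⟨i, rfl⟩ : Lang.Relations 2) ![x, y]
    rw [show (f ∘ ![x, y]) = ![f x, f y] from by funext k; fin_cases k <;> rfl] at this
    exact this
  · rintro ⟨f, hf, h⟩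
    refine ⟨@Language.Embedding.mk Lang ℕ ℕ A B ⟨f, hf⟩ (fun g => Empty.elim g) ?_⟩
    rintro n ⟨i, rfl⟩ v
    have e1 : v = ![v 0, v 1] := by funext k; fin_cases k <;> rfl
    have e2 : f ∘ v = ![f (v 0), f (v 1)] := by funext k; fin_cases k <;> rfl
    have := h i (v 0) (v 1)
    unfold rl at this
    rw [← e1, ← e2] at this
    exact this

lemma chi_eq (S : Set ℕ) : chi S = orc fun n => n ∈ S := by
  classical
  funext n
  simp only [chi, orc, ind, Set.indicator_apply]

lemma mem_diagram (B : Lang.Structure ℕ) (c : ℕ) : c ∈ diagram B ↔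
    (c.unpair.1 = 0 ∧ c.unpair.2.unpair.1 = c.unpair.2.unpair.2) ∨
    (¬ c.unpair.1 = 0 ∧ cd (rl B) (Nat.pair c.unpair.1.pred c.unpair.2)) := by
  constructor
  · rintro (⟨x, y, rfl, h⟩ | ⟨i, x, y, rfl, h⟩)
    · left; simpa using h
    · right; simpa [cd, rl] using h
  · rintro (⟨h1, h2⟩ | ⟨h1, h2⟩)
    · exact Or.inl ⟨_, _, by rw [Nat.pair_unpair, ← h1, Nat.pair_unpair], h2⟩
    · refine Or.inr ⟨c.unpair.1.pred, c.unpair.2.unpair.1, c.unpair.2.unpair.2, ?_, ?_⟩
      · rw [Nat.pair_unpair, ← Nat.succ_eq_add_one, Nat.succ_pred h1, Nat.pair_unpair]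
      · simpa [cd, rl] using h2

lemma diagram_equiv (B : Lang.Structure ℕ) :
    TuringEquivalent (chi (diagram B)) (orc (cd (rl B))) := by
  rw [chi_eq]
  constructor
  · refine pin_iff.1 (PIn.of_iff ?_ fun c => (mem_diagram B c).symm)
    exact ((peq (pl pid) (pc 0)).and (peq (pl (pr pid)) (pr (pr pid)))).or
      ((peq (pl pid) (pc 0)).not.and ((pin_self (cd (rl B))).comp'
        (pp (Primrec.pred.comp (pl pid)) (pr pid))))
  · refine pin_iff.1 (((pin_self fun n => n ∈ diagram B).comp'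
      (pp (Primrec.succ.comp (pl pid)) (pr pid))).of_iff fun c => ?_)
    simp [mem_diagram]

theorem result : ∃ (A : Lang.Structure ℕ) (a b : Set ℕ),
    ¬ TuringReducible (chi a) (chi b) ∧ ¬ TuringReducible (chi b) (chi a) ∧
    ∀ d : Set ℕ,
      (∃ B : Lang.Structure ℕ, BiEmb A B ∧ TuringEquivalent (chi (diagram B)) (chi d)) ↔
      (TuringReducible (chi a) (chi d) ∨ TuringReducible (chi b) (chi d)) := by
  obtain ⟨A, a, b, h1, h2, h3⟩ := MP_219b86_lc.spectrum
  refine ⟨mk A, {n | a n}, {n | b n}, by rwa [chi_eq, chi_eq], by rwa [chi_eq, chi_eq],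
    fun d => ?_⟩
  rw [chi_eq, chi_eq, chi_eq]
  refine Iff.trans ?_ (h3 fun n => n ∈ d)
  constructor
  · rintro ⟨B, ⟨e1, e2⟩, h⟩
    exact ⟨rl B, (emb_iff _ _).1 e1, (emb_iff _ _).1 e2,
      TuringEquivalent.trans _ _ _ (diagram_equiv B).symm h⟩
  · rintro ⟨B, e1, e2, h⟩
    exact ⟨mk B, ⟨(emb_iff _ _).2 e1, (emb_iff _ _).2 e2⟩,
      TuringEquivalent.trans _ _ _ (diagram_equiv (mk B)) h⟩

end Pool.Agent.Results.MP_219b86_lc.TwoCones
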